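import Pool.Agent.U174.AO.Stm
import Pool.Agent.U7.AK.ULTH

/-!
Project AO (helper174), package TRU (helper397): transfer to the ultrapower, transport by an automorphism.
-/

set_option autoImplicit false

namespace Pool.Agent.U397.AO

open IsLocalRing Polynomial Filter Pool.Agent.U174.AK Pool.Agent.U174.AO Pool.Agent.U7.AK.ULTH

theorem t_TRU : S_TRU := by
  intro K K' _ _ O O' π h
  refine ⟨fun hE r => ?_, fun P P' hP hC => ?_⟩
  · obtain ⟨y, rfl⟩ := residue_surjective r
    obtain ⟨x, rfl⟩ := psi_surj h y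
    have hex : ∀ j, ∃ t : O, x j - t ^ 2 ∈ maximalIdeal O ∨ x j + t ^ 2 ∈ maximalIdeal O := by
      intro j
      rcases hE (residue O (x j)) with ⟨s, hs⟩ | ⟨s, hs⟩
      · obtain ⟨t, rfl⟩ := residue_surjective s
        refine ⟨t, Or.inl ?_⟩
        rw [← residue_eq_zero_iff, map_sub, map_pow, hs, sub_self]
      · obtain ⟨t, rfl⟩ := residue_surjective s
        refine ⟨t, Or.inr ?_⟩
        rw [← residue_eq_zero_iff, map_add, map_pow, hs, neg_add_cancel]
    choose t ht using hex
    have h1 : ∀ᶠ j in (hyperfilter ℕ : Filter ℕ), (x j - t j ^ 2 ∈ maximalIdeal O ∨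
        x j + t j ^ 2 ∈ maximalIdeal O) := Eventually.of_forall ht
    rw [Ultrafilter.eventually_or] at h1
    rcases h1 with h1 | h1
    · left
      refine ⟨residue O' (psi h t), ?_⟩
      have h2 : psi h (x - t ^ 2) ∈ maximalIdeal O' := (psi_max h _).2 h1
      rw [← residue_eq_zero_iff, map_sub, map_sub, map_pow, map_pow, sub_eq_zero] at h2
      exact h2
    · right
      refine ⟨residue O' (psi h t), ?_⟩
      have h2 : psi h (x + t ^ 2) ∈ maximalIdeal O' := (psi_max h _).2 h1
      rw [← residue_eq_zero_iff, map_add, map_add, map_pow, map_pow] at h2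
      exact eq_neg_of_add_eq_zero_left h2
  · refine ⟨fun h0 => ?_, fun x hx => ?_, fun x hx y hy => ?_, fun x hx y hy => ?_⟩
    · rw [← map_zero π, hP] at h0
      obtain ⟨j, hj⟩ := h0.exists
      exact hC.zero hj
    · obtain ⟨x, rfl⟩ := h.surj x
      have h1 : ¬ ∀ᶠ j in (hyperfilter ℕ : Filter ℕ), x j = 0 := fun h2 => hx ((h.zero x).2 h2)
      rw [← Ultrafilter.eventually_not] at h1
      have h2 : ∀ᶠ j in (hyperfilter ℕ : Filter ℕ), (x j ∈ P ∨ (-x) j ∈ P) := by
        filter_upwards [h1] with j hj using hC.tot _ hj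
      rw [Ultrafilter.eventually_or, ← hP, ← hP, map_neg] at h2
      exact h2
    · obtain ⟨x, rfl⟩ := h.surj x
      obtain ⟨y, rfl⟩ := h.surj y
      rw [hP] at hx hy
      rw [← map_add, hP]
      filter_upwards [hx, hy] with j h1 h2 using hC.add _ h1 _ h2
    · obtain ⟨x, rfl⟩ := h.surj x
      obtain ⟨y, rfl⟩ := h.surj y
      rw [hP] at hx hy
      rw [← map_mul, hP]
      filter_upwards [hx, hy] with j h1 h2 using hC.mul _ h1 _ h2

/-- Hensel's lemma along an isomorphism -/
theorem hens_equiv {A B : Type} [CommRing A] [CommRing B] [IsLocalRing A] (e : A ≃+* B)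
    (hB : HenselianLocalRing B) : HenselianLocalRing A := by
  refine ⟨?_⟩
  intro f hf a₀ ha₀ hd
  have hmax : ∀ x : A, e x ∈ maximalIdeal B ↔ x ∈ maximalIdeal A := by
    intro x
    rw [mem_maximalIdeal, mem_maximalIdeal, mem_nonunits_iff, mem_nonunits_iff]
    exact not_congr (MulEquiv.isUnit_map e)
  obtain ⟨b, hb, hb'⟩ := hB.is_henselian (f.map (e : A →+* B)) (hf.map _) (e a₀) (by
    have : (f.map (e : A →+* B)).eval (e a₀) = e (f.eval a₀) := eval_map_apply (e : A →+* B) (p := f) a₀
    rw [this, hmax]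
    exact ha₀) (by
    have : (derivative (f.map (e : A →+* B))).eval (e a₀) = e ((derivative f).eval a₀) := by
      rw [derivative_map]
      exact eval_map_apply (e : A →+* B) (p := derivative f) a₀
    rw [this]
    exact hd.map e)
  obtain ⟨a, rfl⟩ := e.surjective b
  refine ⟨a, ?_, ?_⟩
  · have : (f.map (e : A →+* B)).eval (e a) = e (f.eval a) := eval_map_apply (e : A →+* B) (p := f) a
    rw [IsRoot.def, this] at hb
    rw [IsRoot.def]
    exact e.injective (by rw [hb, map_zero])
  · rw [← hmax, map_sub]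
    exact hb'

/-- the restriction of the automorphism -/
noncomputable def eq1 {M : Type} [Field M] (V : ValuationSubring M) (σ : M ≃+* M) :
    V.comap (σ : M →+* M) ≃+* V where
  toFun x := ⟨σ (x : M), x.2⟩
  invFun y := ⟨σ.symm (y : M), by
    show σ (σ.symm (y : M)) ∈ V
    rw [RingEquiv.apply_symm_apply]
    exact y.2⟩
  left_inv x := Subtype.ext (σ.symm_apply_apply _)
  right_inv y := Subtype.ext (σ.apply_symm_apply _)
  map_mul' x y := Subtype.ext (map_mul σ _ _)
  map_add' x y := Subtype.ext (map_add σ _ _)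

theorem t_TRS : S_TRS := by
  intro M _ V σ
  refine ⟨fun h => hens_equiv (eq1 V σ) h, fun h => ?_, fun h r => ?_⟩
  · exact charZero_of_injective_ringHom
      (ResidueField.mapEquiv (eq1 V σ).symm : ResidueField V ≃+* ResidueField (V.comap (σ : M →+* M))).injective
  · obtain ⟨E, -⟩ : ∃ E : ResidueField V ≃+* ResidueField (V.comap (σ : M →+* M)), True :=
      ⟨ResidueField.mapEquiv (eq1 V σ).symm, trivial⟩
    rcases h (E.symm r) with ⟨s, hs⟩ | ⟨s, hs⟩
    · left
      refine ⟨E s, ?_⟩
      rw [← map_pow, ← hs, RingEquiv.apply_symm_apply]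
    · right
      refine ⟨E s, ?_⟩
      rw [← map_pow, ← map_neg, ← hs, RingEquiv.apply_symm_apply]

end Pool.Agent.U397.AO
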